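import Pool.Agent.H.MP_40a019_an.E

open Filter Topology

namespace Pool.Agent.Results.MP_40a019_an.Bounded

def Invol (τ : ℂ → ℂ) : Prop := AnalyticAt ℂ τ 0 ∧ τ 0 = 0 ∧ τ ∘ τ =ᶠ[𝓝 0] id

theorem result (L : List (ℂ → ℂ)) (hL : ∀ τ ∈ L, Invol τ) :
    ∃ L' : List (ℂ → ℂ), L'.length = 128 ∧ (∀ τ ∈ L', Invol τ) ∧
      L'.foldr (· ∘ ·) id =ᶠ[𝓝 0] L.foldr (· ∘ ·) id :=
  Pool.Agent.H.MP_40a019_an.final L hL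

end Pool.Agent.Results.MP_40a019_an.Bounded
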